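import Pool.Agent.N879.PZ.Asm2

set_option autoImplicit false

/-! Project PZ of the starting library (helper879): the missing piece LED. -/

namespace Pool.Agent.L5helper62.PZ

open Complex Filter Topology MeasureTheory Set
open Pool.Agent.Y969.GP (ff V V1 ht lam PS FR co cr PX mk mB)
open Pool.Agent.Y969.SM (kx ff_cont mB_int mB_cs mB_const mB_mass)
open Pool.Agent.W184.NZ (w1)
open Pool.Agent.N879.PZ

noncomputable section

/-- telescoping -/
lemma prod_sub {n : ℕ} (a b : Fin n → ℂ) : ∏ j, a j - ∏ j, b j =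
    ∑ i, ∏ j, (if j < i then b j else if j = i then a j - b j else a j) := by
  induction n with
  | zero => simp
  | succ n ih =>
    rw [Fin.prod_univ_succ, Fin.prod_univ_succ, Fin.sum_univ_succ, Fin.prod_univ_succ]
    have h1 : (a 0 * ∏ i : Fin n, a i.succ - b 0 * ∏ i : Fin n, b i.succ) =
        (a 0 - b 0) * ∏ i : Fin n, a i.succ +
          b 0 * (∏ i : Fin n, a i.succ - ∏ i : Fin n, b i.succ) := by ring
    rw [h1, ih (fun j => a j.succ) fun j => b j.succ, Finset.mul_sum]
    congr 1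
    refine Finset.sum_congr rfl fun i _ => ?_
    rw [Fin.prod_univ_succ]
    simp only [Fin.succ_pos, if_true, Fin.succ_lt_succ_iff, Fin.succ_inj]

/-- Cauchy-Schwarz over the window -/
lemma cs_win {U B : ℝ} (hU : 0 ≤ U) {g : ℝ → ℂ} (hg : Continuous g) (t : ℝ) (hB : 0 ≤ B)
    (h : ∫ c in (0:ℝ)..U, ‖g (t + c)‖ ^ 2 ≤ U * B ^ 2) :
    ∫ c in (0:ℝ)..U, ‖g (t + c)‖ ≤ U * B := by
  have hc : Continuous fun c : ℝ => ‖g (t + c)‖ := (hg.comp (by fun_prop)).norm
  have h1 : ∀ x : ℝ, 2 * x * (∫ c in (0:ℝ)..U, ‖g (t + c)‖) ≤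
      (∫ c in (0:ℝ)..U, ‖g (t + c)‖ ^ 2) + x ^ 2 * U := by
    intro x
    have h2 : ∫ c in (0:ℝ)..U, 2 * x * ‖g (t + c)‖ ≤ ∫ c in (0:ℝ)..U, (‖g (t + c)‖ ^ 2 + x ^ 2) := by
      refine intervalIntegral.integral_mono_on hU ?_ ?_ fun c _ => ?_
      · exact (continuous_const.mul hc).intervalIntegrable _ _
      · exact ((hc.pow 2).add continuous_const).intervalIntegrable _ _
      · nlinarith [sq_nonneg (‖g (t + c)‖ - x)]
    have h3 : ∫ c in (0:ℝ)..U, (‖g (t + c)‖ ^ 2 + x ^ 2) =
        (∫ c in (0:ℝ)..U, ‖g (t + c)‖ ^ 2) + ∫ _c in (0:ℝ)..U, x ^ 2 :=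
      intervalIntegral.integral_add ((hc.pow 2).intervalIntegrable _ _)
        (continuous_const.intervalIntegrable _ _)
    rw [intervalIntegral.integral_const_mul, h3,
      intervalIntegral.integral_const, sub_zero, smul_eq_mul] at h2
    linarith
  rcases hB.eq_or_lt with hB0 | hB0
  · rw [← hB0] at h ⊢
    have h2 : ∀ x : ℝ, 0 < x → ∫ c in (0:ℝ)..U, ‖g (t + c)‖ ≤ x * U := by
      intro x hx
      have h3 := h1 (2 * x)
      have h4 : 0 < 4 * x := by linarith
      have h5 : (4 * x) * (∫ c in (0:ℝ)..U, ‖g (t + c)‖) ≤ (4 * x) * (x * U) := by nlinarith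
      exact le_of_mul_le_mul_left h5 h4
    by_contra hcon
    push Not at hcon
    rw [mul_zero] at hcon
    have h3 := h2 ((∫ c in (0:ℝ)..U, ‖g (t + c)‖) / (2 * (U + 1))) (by positivity)
    have h4 : (∫ c in (0:ℝ)..U, ‖g (t + c)‖) / (2 * (U + 1)) * U <
        ∫ c in (0:ℝ)..U, ‖g (t + c)‖ := by
      rw [div_mul_eq_mul_div, div_lt_iff₀ (by positivity)]
      nlinarith
    linarith
  · have h2 := h1 B
    have h3 : (2 * B) * (∫ c in (0:ℝ)..U, ‖g (t + c)‖) ≤ (2 * B) * (U * B) := by nlinarith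
    exact le_of_mul_le_mul_left h3 (by linarith)

theorem t_LED (hFUB : S_FUB) (hCTG : S_CTG) (hWIN : S_WIN) (hTW : S_TW) : S_LED := by
  obtain ⟨Cw, hCw, hWIN⟩ := hWIN
  obtain ⟨Ct, hCt, hTW⟩ := hTW
  intro n
  refine ⟨(n + 1) * √Cw ^ n * (1 + 4 * Ct), by positivity, ?_⟩
  intro T U a N hP
  have hW := hWIN T U a N hP
  obtain ⟨hT, hU, hUT, ha, haT, hN1, hNT, hNU⟩ := hP
  have hT0 : 0 < T := by linarith
  have hU0 : 0 < U := by linarith
  have hL1 : 1 ≤ Real.log T := by
    rw [Real.le_log_iff_exp_le hT0]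
    have := Real.exp_one_lt_d9
    linarith
  have ha1 : 1 ≤ a := le_trans (Real.one_le_rpow (by linarith) (by norm_num)) ha
  have ha0 : 0 < a := by linarith
  have hlN : 0 ≤ Real.log N := Real.log_nonneg (by exact_mod_cast hN1)
  have hla : 0 ≤ Real.log (T / a) := Real.log_nonneg (by rwa [le_div_iff₀ ha0, one_mul])
  set L := Real.log T with hLdef
  have hL0 : 0 < L := by linarith
  set s : ℝ := √Cw with hs
  have hs0 : 0 < s := Real.sqrt_pos.2 hCw
  have hs2 : s ^ 2 = Cw := Real.sq_sqrt hCw.le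
  set l : ℝ := 1 + Real.log N with hl
  have hl1 : 1 ≤ l := by linarith
  set r : ℝ := 1 + Real.log (T / a) with hr
  have hr1 : 1 ≤ r := by linarith
  -- the second moment
  have hsm : ∫ t in Icc a T, ff t ≤ (1 + 4 * Ct) * (T * L) := by
    have h1 := hTW T a (1, 1) hT ha haT le_rfl le_rfl (Nat.coprime_one_left 1) (by
      have : ht (1, 1) = 1 := by simp [ht]
      rw [this]
      exact Real.one_le_rpow (by linarith) (by norm_num))
    have e1 : ht (1, 1) = 1 := by simp [ht]
    have e2 : lam (1, 1) = 0 := by simp [lam]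
    have e3 : (∫ t in a..T, (ff t : ℂ) * ee t (1, 1)) = ((∫ t in Icc a T, ff t : ℝ) : ℂ) := by
      rw [integral_Icc_eq_integral_Ioc, ← intervalIntegral.integral_of_le haT,
        ← intervalIntegral.integral_ofReal]
      refine intervalIntegral.integral_congr fun t _ => ?_
      simp [ee, e2]
    rw [e3, e1, Real.sqrt_one, Real.log_one] at h1
    rw [← ofReal_sub, Complex.norm_real, Real.norm_eq_abs] at h1
    have h2 := (abs_le.1 h1).2
    have h3 : a / T * Real.log T ≤ L := by
      rw [← hLdef]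
      have : a / T ≤ 1 := by rwa [div_le_one hT0]
      nlinarith
    have h4 : T ^ (15 / 16 : ℝ) ≤ T := by
      calc T ^ (15 / 16 : ℝ) ≤ T ^ (1 : ℝ) :=
            Real.rpow_le_rpow_of_exponent_le (by linarith) (by norm_num)
        _ = T := Real.rpow_one T
    have h5 : Ct * T * (1 + 0 + a / T * Real.log T) * 1⁻¹ ≤ Ct * T * (1 + L) := by
      rw [inv_one, mul_one, add_zero]
      gcongr
    have h6 : Ct * T ^ (15 / 16 : ℝ) ≤ Ct * T := by gcongr
    have h7 : Ct * T ≤ Ct * T * L := le_mul_of_one_le_right (by positivity) hL1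
    rw [inv_one, mul_one] at h2
    rw [inv_one, mul_one] at h5
    nlinarith
  -- the factors
  set g : Fin n → Fin n → ℝ → ℂ := fun i j u => if j < i then (L : ℂ) * P1 N u else
    if j = i then DN N u - (L : ℂ) * P1 N u else DN N u with hg
  have hgc : ∀ i j, Continuous (g i j) := by
    intro i j
    simp only [hg]
    split_ifs
    · exact continuous_const.mul (P1_cont N)
    · exact (DN_cont N).sub (continuous_const.mul (P1_cont N))
    · exact DN_cont N
  have hgw : ∀ t ∈ Icc a T, ∀ i j, ∫ c in (0:ℝ)..U, ‖g i j (t + c)‖ ≤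
      U * (s * l ^ 2 * if j = i then r else L) := by
    intro t ht i j
    obtain ⟨w1, w2, w3⟩ := hW t ht.1 ht.2
    refine cs_win hU0.le (hgc i j) t (by split_ifs <;> positivity) ?_
    simp only [hg]
    by_cases h1 : j < i
    · rw [if_neg h1.ne]
      simp only [if_pos h1]
      have e1 : ∀ c : ℝ, ‖(L : ℂ) * P1 N (t + c)‖ ^ 2 = L ^ 2 * ‖P1 N (t + c)‖ ^ 2 := fun c => by
        rw [norm_mul, mul_pow, Complex.norm_real, Real.norm_eq_abs, sq_abs]
      simp only [e1]
      rw [intervalIntegral.integral_const_mul]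
      calc L ^ 2 * ∫ c in (0:ℝ)..U, ‖P1 N (t + c)‖ ^ 2 ≤ L ^ 2 * (Cw * U * l ^ 2) := by gcongr
        _ ≤ L ^ 2 * (Cw * U * l ^ 4) := by
            have : l ^ 2 ≤ l ^ 4 := pow_le_pow_right₀ hl1 (by norm_num)
            gcongr
        _ = U * (s * l ^ 2 * L) ^ 2 := by rw [← hs2]; ring
    · simp only [if_neg h1]
      by_cases h2 : j = i
      · rw [if_pos h2]
        simp only [if_pos h2]
        refine w3.trans (le_of_eq ?_)
        rw [← hs2]
        ring
      · rw [if_neg h2]
        simp only [if_neg h2]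
        refine w2.trans (le_of_eq ?_)
        rw [← hs2]
        ring
  have hfub : ∀ i, ∫ c, ‖∫ t in Icc a T, (ff t : ℂ) * ∏ j, g i j (t + c j)‖ ∂(mB n 0 U) ≤
      (1 + 4 * Ct) * (T * L) * ((U * (s * l ^ 2)) ^ n * (r * L ^ (n - 1))) := by
    intro i
    refine (hFUB n a T U (Icc a T) (fun t => (ff t : ℂ)) (g i) haT hU0 measurableSet_Icc
      (Subset.refl _) (Wb_ff a T) (hgc i)).trans ?_
    have hprod : ∀ t ∈ Icc a T, ∏ j, ∫ c in (0:ℝ)..U, ‖g i j (t + c)‖ ≤
        (U * (s * l ^ 2)) ^ n * (r * L ^ (n - 1)) := by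
      intro t ht
      calc ∏ j, ∫ c in (0:ℝ)..U, ‖g i j (t + c)‖ ≤
            ∏ j, (U * (s * l ^ 2 * if j = i then r else L)) := by
            refine Finset.prod_le_prod (fun j _ => ?_) fun j _ => hgw t ht i j
            exact intervalIntegral.integral_nonneg hU0.le fun c _ => norm_nonneg _
        _ = ∏ j, ((U * (s * l ^ 2)) * if j = i then r else L) := by
            refine Finset.prod_congr rfl fun j _ => ?_
            ring
        _ = (U * (s * l ^ 2)) ^ n * (r * L ^ (n - 1)) := by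
            rw [Finset.prod_mul_distrib, Finset.prod_const, Finset.card_univ, Fintype.card_fin,
              Finset.prod_ite, Finset.prod_const, Finset.prod_const]
            congr 2
            · rw [Finset.filter_eq' Finset.univ i, if_pos (Finset.mem_univ i),
                Finset.card_singleton, pow_one]
            · congr 1
              rw [Finset.filter_ne' Finset.univ i, Finset.card_erase_of_mem (Finset.mem_univ i),
                Finset.card_univ, Fintype.card_fin]
    have hfn : ∀ t, ‖(ff t : ℂ)‖ = ff t := fun t => by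
      rw [Complex.norm_real, Real.norm_eq_abs, abs_of_nonneg]
      unfold ff
      positivity
    have hff0 : ∀ t, 0 ≤ ff t := fun t => by
      unfold ff
      positivity
    calc ∫ t in Icc a T, ‖(ff t : ℂ)‖ * ∏ j, ∫ c in (0:ℝ)..U, ‖g i j (t + c)‖
        ≤ ∫ t in Icc a T, ff t * ((U * (s * l ^ 2)) ^ n * (r * L ^ (n - 1))) := by
          refine integral_mono_of_nonneg (Eventually.of_forall fun t => ?_) ?_ ?_
          · exact mul_nonneg (norm_nonneg _) (Finset.prod_nonneg fun j _ =>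
              intervalIntegral.integral_nonneg hU0.le fun c _ => norm_nonneg _)
          · exact (ff_cont.mul continuous_const).integrableOn_Icc
          · rw [Filter.EventuallyLE, ae_restrict_iff' measurableSet_Icc]
            refine Eventually.of_forall fun t ht => ?_
            simp only [hfn]
            exact mul_le_mul_of_nonneg_left (hprod t ht) (hff0 t)
      _ = (∫ t in Icc a T, ff t) * ((U * (s * l ^ 2)) ^ n * (r * L ^ (n - 1))) :=
          integral_mul_const _ _
      _ ≤ _ := mul_le_mul_of_nonneg_right hsm (by positivity)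
  -- the sum
  have hsum : ∀ c : Fin n → ℝ, (∫ t in Icc a T, (ff t : ℂ) * (∏ j : Fin n, DN N (t + c j) -
      ∏ j, ((Real.log T : ℂ) * P1 N (t + c j)))) =
        ∑ i, ∫ t in Icc a T, (ff t : ℂ) * ∏ j, g i j (t + c j) := by
    intro c
    rw [← integral_finsetSum]
    · refine integral_congr_ae (Eventually.of_forall fun t => ?_)
      simp only
      rw [prod_sub, Finset.mul_sum]
    · intro i _
      have hc : Continuous fun t : ℝ => (ff t : ℂ) * ∏ j, g i j (t + c j) := by
        refine (Complex.continuous_ofReal.comp ff_cont).mul (continuous_finsetProd _ fun j _ => ?_)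
        exact (hgc i j).comp (by fun_prop)
      exact hc.integrableOn_Icc
  have hcont : ∀ i, Continuous fun c : Fin n → ℝ =>
      ∫ t in Icc a T, (ff t : ℂ) * ∏ j, g i j (t + c j) := fun i =>
    hCTG n a T _ _ (g i) haT measurableSet_Icc (Subset.refl _) (Wb_ff a T) (hgc i)
  have hsum' : (fun c : Fin n → ℝ => ‖∫ t in Icc a T, (ff t : ℂ) * (∏ j : Fin n, DN N (t + c j) -
      ∏ j, ((Real.log T : ℂ) * P1 N (t + c j)))‖) =
        fun c => ‖∑ i, ∫ t in Icc a T, (ff t : ℂ) * ∏ j, g i j (t + c j)‖ :=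
    funext fun c => by rw [hsum c]
  rw [hsum']
  calc ∫ c, ‖∑ i, ∫ t in Icc a T, (ff t : ℂ) * ∏ j, g i j (t + c j)‖ ∂(mB n 0 U)
      ≤ ∫ c, ∑ i, ‖∫ t in Icc a T, (ff t : ℂ) * ∏ j, g i j (t + c j)‖ ∂(mB n 0 U) := by
        refine integral_mono (mB_int (continuous_finsetSum _ fun i _ => hcont i).norm 0 U)
          (mB_int (continuous_finsetSum _ fun i _ => (hcont i).norm) 0 U) fun c => norm_sum_le _ _
    _ = ∑ i, ∫ c, ‖∫ t in Icc a T, (ff t : ℂ) * ∏ j, g i j (t + c j)‖ ∂(mB n 0 U) :=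
        integral_finsetSum _ fun i _ => mB_int (hcont i).norm 0 U
    _ ≤ ∑ _i : Fin n, (1 + 4 * Ct) * (T * L) * ((U * (s * l ^ 2)) ^ n * (r * L ^ (n - 1))) :=
        Finset.sum_le_sum fun i _ => hfub i
    _ = n * ((1 + 4 * Ct) * (T * L) * ((U * (s * l ^ 2)) ^ n * (r * L ^ (n - 1)))) := by
        rw [Finset.sum_const, Finset.card_univ, Fintype.card_fin, nsmul_eq_mul]
    _ ≤ (n + 1) * s ^ n * (1 + 4 * Ct) * l ^ (2 * n) * r * L ^ n * T * U ^ n := by
        rcases Nat.eq_zero_or_pos n with hn | hn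
        · subst hn
          simp only [Nat.cast_zero, zero_mul]
          positivity
        · obtain ⟨m, rfl⟩ : ∃ m, n = m + 1 := ⟨n - 1, by omega⟩
          rw [Nat.add_sub_cancel]
          have e1 : ((m + 1 : ℕ) : ℝ) * ((1 + 4 * Ct) * (T * L) *
              ((U * (s * l ^ 2)) ^ (m + 1) * (r * L ^ m))) =
              ((m + 1 : ℕ) : ℝ) * (s ^ (m + 1) * (1 + 4 * Ct) * l ^ (2 * (m + 1)) * r *
                L ^ (m + 1) * T * U ^ (m + 1)) := by
            rw [mul_pow, mul_pow, ← pow_mul, pow_succ L m]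
            ring
          rw [e1]
          have e2 : 0 ≤ s ^ (m + 1) * (1 + 4 * Ct) * l ^ (2 * (m + 1)) * r *
                L ^ (m + 1) * T * U ^ (m + 1) := by positivity
          nlinarith

end

end Pool.Agent.L5helper62.PZ
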